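import Pool.Agent.H97.RK.Targets

/-!
# MP_c62aed_lc, board `rks_modules`, row BLB: small balls
-/

set_option autoImplicit false

open Finset Pool.Agent.H97.RK

namespace Pool.Agent.H45.RKS

theorem bl_mul_le (n a : ℕ) (μ : ℝ) (h0 : 0 < μ) (h1 : μ ≤ 1) :
    (bl n a : ℝ) * μ ^ a ≤ (μ + 1) ^ n := by
  unfold bl
  rw [add_pow]
  push_cast
  rw [Finset.sum_mul]
  have e1 : ∀ i ∈ range (a + 1), (n.choose i : ℝ) * μ ^ a ≤ μ ^ i * 1 ^ (n - i) * n.choose i := by
    intro i hi
    have hia : i ≤ a := by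
      rw [Finset.mem_range] at hi
      omega
    rw [one_pow, mul_one, mul_comm]
    exact mul_le_mul_of_nonneg_right (pow_le_pow_of_le_one h0.le h1 hia) (Nat.cast_nonneg _)
  refine (Finset.sum_le_sum e1).trans ?_
  have e2 : ∑ i ∈ (range (a + 1)).filter (fun i => i < n + 1),
      μ ^ i * 1 ^ (n - i) * (n.choose i : ℝ) =
      ∑ i ∈ range (a + 1), μ ^ i * 1 ^ (n - i) * (n.choose i : ℝ) := by
    refine Finset.sum_filter_of_ne fun i _ hi => ?_
    by_contra hcon
    apply hi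
    rw [Nat.choose_eq_zero_of_lt (by omega), Nat.cast_zero, mul_zero]
  rw [← e2]
  refine Finset.sum_le_sum_of_subset_of_nonneg ?_ fun i _ _ => by positivity
  intro i hi
  rw [Finset.mem_filter] at hi
  exact Finset.mem_range.2 hi.2

theorem pf_BLB : T_BLB := by
  intro ε hε
  set μ : ℝ := min 1 (ε / 4) with hμ
  have h0 : 0 < μ := lt_min one_pos (by linarith)
  have h1 : μ ≤ 1 := min_le_left _ _
  have h2 : μ ≤ ε / 4 := min_le_right _ _
  have hl : 0 ≤ Real.log (1 / μ) := Real.log_nonneg (by rw [le_div_iff₀ h0]; linarith)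
  have hl2 : (1 : ℝ) / 2 ≤ Real.log 2 := by
    have := Real.log_two_gt_d9
    linarith
  refine ⟨ε / (4 * (Real.log (1 / μ) + 1)), by positivity, fun n a ha => ?_⟩
  have hn : (0 : ℝ) ≤ n := Nat.cast_nonneg n
  have h3 := bl_mul_le n a μ h0 h1
  have h4 : (μ + 1) ^ n ≤ Real.exp (μ * n) := by
    rw [mul_comm μ, Real.exp_nat_mul]
    exact pow_le_pow_left₀ (by linarith) (Real.add_one_le_exp μ) n
  have h5 : μ ^ a = Real.exp (-(a * Real.log (1 / μ))) := by
    rw [one_div, Real.log_inv, mul_neg, neg_neg, Real.exp_nat_mul, Real.exp_log h0]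
  have h6 : (a : ℝ) * Real.log (1 / μ) ≤ ε / 4 * n := by
    have h7 : (a : ℝ) * Real.log (1 / μ) ≤
        ε / (4 * (Real.log (1 / μ) + 1)) * n * Real.log (1 / μ) :=
      mul_le_mul_of_nonneg_right ha hl
    have h8 : ε / (4 * (Real.log (1 / μ) + 1)) * n * Real.log (1 / μ) =
        (ε / 4 * n) * (Real.log (1 / μ) / (Real.log (1 / μ) + 1)) := by
      field_simp
    have h9 : Real.log (1 / μ) / (Real.log (1 / μ) + 1) ≤ 1 := by
      rw [div_le_one (by linarith)]
      linarith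
    rw [h8] at h7
    exact h7.trans (mul_le_of_le_one_right (by positivity) h9)
  have h10 : (bl n a : ℝ) ≤ Real.exp (μ * n + a * Real.log (1 / μ)) := by
    rw [h5] at h3
    have h11 := h3.trans h4
    rw [Real.exp_neg, ← div_eq_mul_inv, div_le_iff₀ (Real.exp_pos _), ← Real.exp_add] at h11
    exact h11
  rw [Real.rpow_def_of_pos (by norm_num : (0 : ℝ) < 2)]
  refine h10.trans (Real.exp_le_exp.2 ?_)
  have h12 : μ * n ≤ ε / 4 * n := mul_le_mul_of_nonneg_right h2 hn
  have h13 : (1 : ℝ) / 2 * (ε * n) ≤ Real.log 2 * (ε * n) :=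
    mul_le_mul_of_nonneg_right hl2 (by positivity)
  linarith

end Pool.Agent.H45.RKS
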